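import Pool.Agent.H5.RPG.Stmts

set_option autoImplicit false

namespace Pool.RPG

open Filter TMLib Pool.PG

theorem usu_U (g : Game) (w : ℕ) (hw : w < g.length) :
    (U g).getD w false = (!(R true g).getD w false && !(R false g).getD w false) := by
  unfold U
  rw [List.getD_eq_getElem?_getD, List.getElem?_map, List.getElem?_range hw]
  rfl

theorem usu_U' (g : Game) (w : ℕ) (hw : w < g.length) :
    (U g).getD w false = true ↔ ∀ i : Bool, (R i g).getD w false = false := by
  rw [usu_U g w hw, Bool.and_eq_true, Bool.not_eq_true', Bool.not_eq_true']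
  constructor
  · rintro ⟨h1, h2⟩ i
    cases i
    · exact h2
    · exact h1
  · intro h
    exact ⟨h true, h false⟩

theorem usu_thm (h1 : RITStmt) : USUStmt := by
  intro g v hg hv hU
  have hU' := (usu_U' g v hv).1 hU
  have hsuc := (hg v hv).2
  have p1 : ∀ w ∈ suc g v, (R (own g v) g).getD w false = false := by
    intro w hw
    by_contra hcon
    rw [Bool.not_eq_false] at hcon
    have h2 := ((h1 g (own g v)).2 w).1 hcon
    have h3 : (R (own g v) g).getD v false = true := by
      rw [(h1 g (own g v)).2 v]
      refine ⟨hv, fun T hT hcl => hcl v hv ?_⟩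
      rw [if_pos rfl]
      exact ⟨w, hw, h2.2 T hT hcl⟩
    rw [hU'] at h3
    exact Bool.false_ne_true h3
  have p2 : ∀ w ∈ suc g v, (U g).getD w false = true ∨ (R (!own g v) g).getD w false = true := by
    intro w hw
    by_cases h2 : (R (!own g v) g).getD w false = true
    · exact Or.inr h2
    · left
      rw [usu_U' g w (hsuc w hw)]
      intro i
      by_cases hi : i = own g v
      · rw [hi]
        exact p1 w hw
      · have : i = !own g v := by
          cases i <;> cases hh : own g v <;> simp_all
        rw [this]
        exact Bool.eq_false_iff.2 h2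
  refine ⟨p1, p2, ?_⟩
  by_contra hcon
  push Not at hcon
  have h3 : (R (!own g v) g).getD v false = true := by
    rw [(h1 g (!own g v)).2 v]
    refine ⟨hv, fun T hT hcl => hcl v hv ?_⟩
    rw [if_neg (by simp)]
    intro w hw
    have h4 : (R (!own g v) g).getD w false = true := (p2 w hw).resolve_left (hcon w hw)
    exact (((h1 g (!own g v)).2 w).1 h4).2 T hT hcl
  rw [hU'] at h3
  exact Bool.false_ne_true h3

end Pool.RPG
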